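import Mathlib

/-!
# Conjugation of a quadratic field: norms and primes
-/

set_option autoImplicit false

namespace Pool.Agent.H576.FN

open NumberField IsDedekindDomain WithZero

/-- the conjugation of a quadratic field, the norm and the trace -/
theorem exists_conj (K : Type) [Field K] [NumberField K] (hK : Module.finrank ℚ K = 2) :
    ∃ σ : K ≃ₐ[ℚ] K, (∀ x, σ (σ x) = x) ∧
      (∀ x, ((Algebra.norm ℚ x : ℚ) : K) = x * σ x) ∧
      ∀ x, ((Algebra.trace ℚ K x : ℚ) : K) = x + σ x := by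
  classical
  have : Algebra.IsQuadraticExtension ℚ K := ⟨hK⟩
  have hG : IsGalois ℚ K := inferInstance
  have hcard : Nat.card (K ≃ₐ[ℚ] K) = 2 := by
    rw [IsGalois.card_aut_eq_finrank, hK]
  have hnt : Nontrivial (K ≃ₐ[ℚ] K) := by
    rw [← Finite.one_lt_card_iff_nontrivial, hcard]
    norm_num
  obtain ⟨σ, hσ⟩ := exists_ne (1 : K ≃ₐ[ℚ] K)
  have hall : (Finset.univ : Finset (K ≃ₐ[ℚ] K)) = {1, σ} := by
    symm
    rw [← Finset.card_eq_iff_eq_univ, Finset.card_pair hσ.symm, ← Nat.card_eq_fintype_card, hcard]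
  refine ⟨σ, ?_, ?_, ?_⟩
  · intro x
    have h1 : σ * σ = 1 := by
      have h2 : σ * σ ∈ (Finset.univ : Finset (K ≃ₐ[ℚ] K)) := Finset.mem_univ _
      rw [hall, Finset.mem_insert, Finset.mem_singleton] at h2
      rcases h2 with h2 | h2
      · exact h2
      · exact absurd (mul_eq_left.1 h2) hσ
    exact congrArg (fun τ : K ≃ₐ[ℚ] K => τ x) h1
  · intro x
    have h1 := Algebra.norm_eq_prod_automorphisms (K := ℚ) (L := K) x
    rw [hall, Finset.prod_pair hσ.symm] at h1
    exact h1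
  · intro x
    have h1 := trace_eq_sum_automorphisms (K := ℚ) (L := K) x
    rw [hall, Finset.sum_pair hσ.symm] at h1
    exact h1

/-- the preimage of a prime under an automorphism -/
theorem exists_prime {K : Type} [Field K] [NumberField K] (σ : K ≃ₐ[ℚ] K)
    (v : HeightOneSpectrum (𝓞 K)) : ∃ v' : HeightOneSpectrum (𝓞 K),
      (∀ x : K, v'.valuation K x = v.valuation K (σ x)) ∧
      ∀ q : ℕ, (q : 𝓞 K) ∈ v.asIdeal → (q : 𝓞 K) ∈ v'.asIdeal := by
  obtain ⟨r, hr⟩ : ∃ r : 𝓞 K ≃+* 𝓞 K, r = RingOfIntegers.mapRingEquiv σ.toRingEquiv := ⟨_, rfl⟩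
  have hrσ : ∀ x : 𝓞 K, algebraMap (𝓞 K) K (r x) = σ (algebraMap (𝓞 K) K x) := by
    intro x
    rw [hr]
    rfl
  let v' : HeightOneSpectrum (𝓞 K) :=
    { asIdeal := v.asIdeal.comap (r : 𝓞 K →+* 𝓞 K)
      isPrime := v.isPrime.comap _
      ne_bot := by
        intro h
        apply v.ne_bot
        rw [eq_bot_iff]
        intro x hx
        have h1 : r.symm x ∈ v.asIdeal.comap (r : 𝓞 K →+* 𝓞 K) := by
          rw [Ideal.mem_comap]
          simpa using hx
        rw [h, Ideal.mem_bot] at h1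
        rw [Ideal.mem_bot]
        simpa using congrArg r h1 }
  have hint : ∀ x : 𝓞 K, v'.intValuation x = v.intValuation (r x) := by
    intro x
    rcases eq_or_ne x 0 with rfl | hx
    · simp
    have hrx : r x ≠ 0 := fun h => hx (by simpa using congrArg r.symm h)
    have hpow : ∀ n : ℕ, x ∈ v'.asIdeal ^ n ↔ r x ∈ v.asIdeal ^ n := by
      intro n
      have h1 : v'.asIdeal ^ n = (v.asIdeal ^ n).comap (r : 𝓞 K →+* 𝓞 K) := by
        change (v.asIdeal.comap (r : 𝓞 K →+* 𝓞 K)) ^ n = _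
        have h2 : ∀ I : Ideal (𝓞 K), I.comap (r : 𝓞 K →+* 𝓞 K) =
            I.map (r.symm : 𝓞 K →+* 𝓞 K) := fun I => (Ideal.map_symm r).symm
        rw [h2, h2, Ideal.map_pow]
      rw [h1, Ideal.mem_comap]
      rfl
    have hiff : ∀ n : ℕ, v'.intValuation x ≤ exp (-(n : ℤ)) ↔
        v.intValuation (r x) ≤ exp (-(n : ℤ)) := by
      intro n
      rw [HeightOneSpectrum.intValuation_le_pow_iff_mem, hpow,
        HeightOneSpectrum.intValuation_le_pow_iff_mem]
    rw [HeightOneSpectrum.intValuation_eq_exp_neg_multiplicity _ hx,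
      HeightOneSpectrum.intValuation_eq_exp_neg_multiplicity _ hrx] at hiff ⊢
    apply le_antisymm
    · exact (hiff _).2 le_rfl
    · exact (hiff _).1 le_rfl
  refine ⟨v', ?_, ?_⟩
  · intro x
    obtain ⟨a, b, hb, rfl⟩ := IsFractionRing.div_surjective (A := 𝓞 K) x
    rw [map_div₀, map_div₀, map_div₀, HeightOneSpectrum.valuation_of_algebraMap,
      HeightOneSpectrum.valuation_of_algebraMap, ← hrσ, ← hrσ,
      HeightOneSpectrum.valuation_of_algebraMap, HeightOneSpectrum.valuation_of_algebraMap,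
      hint, hint]
  · intro q hq
    change (q : 𝓞 K) ∈ v.asIdeal.comap (r : 𝓞 K →+* 𝓞 K)
    rw [Ideal.mem_comap, map_natCast]
    exact hq

/-- a prime above a prime number -/
theorem exists_above (K : Type) [Field K] [NumberField K] {p : ℕ} (hp : p.Prime) :
    ∃ v : HeightOneSpectrum (𝓞 K), (p : 𝓞 K) ∈ v.asIdeal := by
  have hu : ¬ IsUnit (p : 𝓞 K) := by
    intro h
    have h1 := NumberField.isUnit_iff_norm.1 h
    have h2 : (RingOfIntegers.norm ℚ (p : 𝓞 K) : ℚ) = (p : ℚ) ^ Module.finrank ℚ K := by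
      rw [RingOfIntegers.coe_norm]
      have : ((p : 𝓞 K) : K) = algebraMap ℚ K p := by simp
      rw [this, Algebra.norm_algebraMap]
    rw [h2] at h1
    have h3 : (1 : ℚ) < (p : ℚ) ^ Module.finrank ℚ K := by
      apply one_lt_pow₀
      · exact_mod_cast hp.one_lt
      · exact Module.finrank_pos.ne'
    rw [abs_of_pos (by linarith)] at h1
    linarith
  obtain ⟨M, hM, hpM⟩ := exists_max_ideal_of_mem_nonunits hu
  refine ⟨⟨M, hM.isPrime, ?_⟩, hpM⟩
  rintro rfl
  rw [Ideal.mem_bot] at hpM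
  exact hp.ne_zero (by exact_mod_cast hpM)

/-- the valuation of a rational number -/
theorem val_rat {K : Type} [Field K] [NumberField K] {p : ℕ} (hp : p.Prime)
    (v : HeightOneSpectrum (𝓞 K)) (hv : (p : 𝓞 K) ∈ v.asIdeal) {q : ℚ}
    (h : 0 ≤ padicValRat p q) : v.valuation K (q : K) ≤ 1 := by
  have hfp : Fact p.Prime := ⟨hp⟩
  have hden : ¬ p ∣ q.den := by
    intro hd
    rcases eq_or_ne q 0 with rfl | hq
    · rw [Rat.den_zero, Nat.dvd_one] at hd
      exact hp.ne_one hd
    have h1 : padicValInt p q.num = 0 := by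
      apply padicValInt.eq_zero_of_not_dvd
      intro h2
      have h3 : p ∣ q.num.natAbs := Int.natCast_dvd.1 h2
      exact Nat.not_coprime_of_dvd_of_dvd hp.one_lt h3 hd q.reduced
    have h2 : 1 ≤ padicValNat p q.den := one_le_padicValNat_of_dvd q.den_ne_zero hd
    rw [padicValRat_def, h1] at h
    omega
  have hint : ∀ m : ℤ, v.valuation K ((m : 𝓞 K) : K) ≤ 1 := fun m => v.valuation_le_one _
  have hd1 : v.valuation K ((q.den : 𝓞 K) : K) = 1 := by
    apply le_antisymm (v.valuation_le_one _)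
    by_contra hcon
    push Not at hcon
    rw [HeightOneSpectrum.valuation_of_algebraMap] at hcon
    have h1 : ((q.den : ℕ) : 𝓞 K) ∈ v.asIdeal := by
      rw [← HeightOneSpectrum.intValuation_lt_one_iff_mem]
      exact hcon
    have h2 : IsCoprime (q.den : ℤ) (p : ℤ) := by
      rw [Nat.isCoprime_iff_coprime]
      exact ((Nat.Prime.coprime_iff_not_dvd hp).2 hden).symm
    obtain ⟨a, b, hab⟩ := h2
    have h3 : (1 : 𝓞 K) ∈ v.asIdeal := by
      have h4 : (1 : 𝓞 K) = (a : 𝓞 K) * (q.den : 𝓞 K) + (b : 𝓞 K) * (p : 𝓞 K) := by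
        exact_mod_cast (congrArg (fun t : ℤ => (t : 𝓞 K)) hab).symm
      rw [h4]
      exact v.asIdeal.add_mem (Ideal.mul_mem_left _ _ h1) (Ideal.mul_mem_left _ _ hv)
    exact v.isPrime.ne_top ((Ideal.eq_top_iff_one _).2 h3)
  have e : (q : K) = ((q.num : 𝓞 K) : K) / ((q.den : 𝓞 K) : K) := by
    have h1 : (q : K) = (q.num : K) / (q.den : K) := by
      exact_mod_cast congrArg (fun t : ℚ => (t : K)) (Rat.num_div_den q).symm
    rw [h1]
    simp
  rw [e, map_div₀, hd1, div_one]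
  exact hint _

end Pool.Agent.H576.FN
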