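import Pool.Agent.H576.FN.Conj
import Pool.Graph.R_pool_sql_team_seeded_5cf16337.K3h44.FQ.Main

/-!
# Solutions of Fermat's equation over quadratic fields two members of which have the same norm
-/

set_option autoImplicit false

namespace Pool.Agent.H576.FN

open NumberField IsDedekindDomain WithZero Pool.Agent.K3h44.FQ

section val

variable {K : Type} [Field K] [NumberField K]

/-- the value of a coprime prime number -/
lemma val_two {p : ℕ} (hp : p.Prime) (h2 : p ≠ 2) (v : HeightOneSpectrum (𝓞 K))
    (hv : (p : 𝓞 K) ∈ v.asIdeal) : ¬ v.valuation K (2 : K) < 1 := by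
  intro hcon
  have e : (2 : K) = algebraMap (𝓞 K) K 2 := by rw [map_ofNat]
  have h1 : (2 : 𝓞 K) ∈ v.asIdeal := by
    rw [e, HeightOneSpectrum.valuation_of_algebraMap] at hcon
    rw [← HeightOneSpectrum.intValuation_lt_one_iff_mem]
    exact hcon
  have h3 : IsCoprime ((2 : ℕ) : ℤ) (p : ℤ) := by
    rw [Nat.isCoprime_iff_coprime]
    exact (Nat.coprime_primes Nat.prime_two hp).2 (Ne.symm h2)
  obtain ⟨a, b, hab⟩ := h3
  have h4 : (1 : 𝓞 K) ∈ v.asIdeal := by
    have h5 : (1 : 𝓞 K) = (a : 𝓞 K) * (2 : 𝓞 K) + (b : 𝓞 K) * (p : 𝓞 K) := by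
      have := congrArg (fun t : ℤ => (t : 𝓞 K)) hab
      push_cast at this
      exact this.symm
    rw [h5]
    exact v.asIdeal.add_mem (Ideal.mul_mem_left _ _ h1) (Ideal.mul_mem_left _ _ hv)
  exact v.isPrime.ne_top ((Ideal.eq_top_iff_one _).2 h4)

/-- the freshman's dream -/
lemma val_add_pow {p : ℕ} (hp : p.Prime) (v : HeightOneSpectrum (𝓞 K))
    (hv : (p : 𝓞 K) ∈ v.asIdeal) {t : K} (ht : v.valuation K t ≤ 1)
    (h : v.valuation K (t ^ p + 1) < 1) : v.valuation K (t + 1) < 1 := by
  obtain ⟨r, hr⟩ := exists_add_pow_prime_eq hp (⟨t, ht⟩ : (v.valuation K).integer) 1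
  have hr' : (t + 1) ^ p = t ^ p + 1 + p * (t * ((r : (v.valuation K).integer) : K)) := by
    have h1 := congrArg (fun s : (v.valuation K).integer => (s : K)) hr
    push_cast at h1
    rw [one_pow] at h1
    linear_combination h1
  have hp1 : v.valuation K (p : K) < 1 := by
    have e : (p : K) = algebraMap (𝓞 K) K (p : 𝓞 K) := by rw [map_natCast]
    rw [e, HeightOneSpectrum.valuation_of_algebraMap, HeightOneSpectrum.intValuation_lt_one_iff_mem]
    exact hv
  have h2 : v.valuation K ((t + 1) ^ p) < 1 := by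
    rw [hr']
    refine Valuation.map_add_lt _ h ?_
    rw [map_mul, map_mul]
    exact mul_lt_one_of_lt_of_le hp1 (mul_le_one₀ ht zero_le' r.2)
  rw [map_pow] at h2
  by_contra hcon
  push Not at hcon
  exact absurd h2 (not_lt.2 (one_le_pow₀ hcon))

/-- the types of a solution at a prime -/
lemma types {p : ℕ} (hp0 : p ≠ 0) (v : HeightOneSpectrum (𝓞 K)) {a b c : K}
    (h : a ^ p + b ^ p + c ^ p = 0)
    (hs : ¬ (v.valuation K a = v.valuation K b ∧ v.valuation K b = v.valuation K c)) :
    (v.valuation K a < v.valuation K b ∧ v.valuation K b = v.valuation K c) ∨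
    (v.valuation K b < v.valuation K a ∧ v.valuation K a = v.valuation K c) ∨
    (v.valuation K c < v.valuation K a ∧ v.valuation K a = v.valuation K b) := by
  have hlt : ∀ s t : WithZero (Multiplicative ℤ), s ^ p < t ^ p ↔ s < t := fun s t =>
    pow_lt_pow_iff_left₀ zero_le' zero_le' hp0
  have heq : ∀ s t : WithZero (Multiplicative ℤ), s ^ p = t ^ p ↔ s = t := fun s t =>
    pow_left_inj₀ zero_le' zero_le' hp0
  have key : ∀ a b c : K, a ^ p + b ^ p + c ^ p = 0 → v.valuation K a < v.valuation K b →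
      v.valuation K b = v.valuation K c := by
    intro a b c h1 h2
    have h3 : c ^ p = -(b ^ p + a ^ p) := by linear_combination h1
    rw [← heq, ← map_pow, ← map_pow, h3, Valuation.map_neg, Valuation.map_add_eq_of_lt_left]
    rw [map_pow, map_pow, hlt]
    exact h2
  rcases lt_trichotomy (v.valuation K a) (v.valuation K b) with h1 | h1 | h1
  · exact Or.inl ⟨h1, key a b c h h1⟩
  · refine Or.inr (Or.inr ⟨?_, h1⟩)
    have h2 : ¬ v.valuation K b = v.valuation K c := fun h3 => hs ⟨h1, h3⟩
    by_contra hcon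
    push Not at hcon
    have h3 : v.valuation K a < v.valuation K c := lt_of_le_of_ne hcon (h1 ▸ h2)
    have h4 := key a c b (by linear_combination h) h3
    exact h2 h4.symm
  · exact Or.inr (Or.inl ⟨h1, key b a c (by linear_combination h) h1⟩)

end val

/-- **The core.** -/
theorem core (K : Type) [Field K] [NumberField K] (hK : Module.finrank ℚ K = 2) {p : ℕ}
    (hp : p.Prime) (h5 : 5 ≤ p) (hreg : ¬ p ∣ classNumber (CyclotomicField p ℚ)) {a b c : K}
    (ha : a ≠ 0) (hb : b ≠ 0) (hc : c ≠ 0) (h : a ^ p + b ^ p + c ^ p = 0)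
    (hs : ∀ v : HeightOneSpectrum (𝓞 K), (p : 𝓞 K) ∈ v.asIdeal →
      ¬ (v.valuation K a = v.valuation K b ∧ v.valuation K b = v.valuation K c))
    (hx : ∀ v v' : HeightOneSpectrum (𝓞 K), (p : 𝓞 K) ∈ v.asIdeal → (p : 𝓞 K) ∈ v'.asIdeal →
      ¬ ((v.valuation K a < v.valuation K b ∧ v.valuation K a < v.valuation K c) ∧
        (v'.valuation K b < v'.valuation K a ∧ v'.valuation K b < v'.valuation K c))) :
    |Algebra.norm ℚ a| ≠ |Algebra.norm ℚ b| := by
  intro hN
  have hodd : Odd p := hp.odd_of_ne_two (by omega)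
  obtain ⟨σ, hσσ, hnorm, htr⟩ := exists_conj K hK
  obtain ⟨v, hv⟩ := exists_above K hp
  obtain ⟨v', hv', hpv⟩ := exists_prime σ v
  have hv2 := hpv p hv
  have hpos : ∀ (w : HeightOneSpectrum (𝓞 K)) (x : K), x ≠ 0 → 0 < w.valuation K x := by
    intro w x hx
    exact zero_lt_iff.2 ((Valuation.ne_zero_iff _).2 hx)
  have hmul : v.valuation K a * v'.valuation K a = v.valuation K b * v'.valuation K b := by
    rw [hv', hv', ← map_mul, ← map_mul, ← hnorm, ← hnorm]
    rcases abs_eq_abs.1 hN with h1 | h1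
    · rw [h1]
    · rw [h1]
      push_cast
      rw [Valuation.map_neg]
  rcases types hp.ne_zero v h (hs v hv) with ⟨t1, t2⟩ | ⟨t1, t2⟩ | ⟨t1, t2⟩
  · -- `a` at `v`
    have h1 : v'.valuation K b < v'.valuation K a := by
      by_contra hcon
      push Not at hcon
      have h2 : v.valuation K a * v'.valuation K a < v.valuation K b * v'.valuation K b :=
        mul_lt_mul'' t1 (lt_of_le_of_ne hcon ?_) zero_le' zero_le'
      · exact absurd hmul h2.ne
      · intro h3
        rw [h3] at hmul
        exact t1.ne (mul_right_cancel₀ (hpos v' b hb).ne' hmul)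
    rcases types hp.ne_zero v' h (hs v' hv2) with ⟨s1, s2⟩ | ⟨s1, s2⟩ | ⟨s1, s2⟩
    · exact absurd h1 (not_lt.2 s1.le)
    · exact hx v v' hv hv2 ⟨⟨t1, t2 ▸ t1⟩, s1, s2 ▸ s1⟩
    · exact absurd s2 h1.ne'
  · -- `b` at `v`
    have h1 : v'.valuation K a < v'.valuation K b := by
      by_contra hcon
      push Not at hcon
      have h2 : v.valuation K b * v'.valuation K b < v.valuation K a * v'.valuation K a :=
        mul_lt_mul'' t1 (lt_of_le_of_ne hcon ?_) zero_le' zero_le'
      · exact absurd hmul h2.ne'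
      · intro h3
        rw [h3] at hmul
        exact t1.ne' (mul_right_cancel₀ (hpos v' a ha).ne' hmul)
    rcases types hp.ne_zero v' h (hs v' hv2) with ⟨s1, s2⟩ | ⟨s1, s2⟩ | ⟨s1, s2⟩
    · exact hx v' v hv2 hv ⟨⟨s1, s2 ▸ s1⟩, t1, t2 ▸ t1⟩
    · exact absurd h1 (not_lt.2 s1.le)
    · exact absurd s2 h1.ne
  · -- `c` at `v`
    have h1 : v'.valuation K a = v'.valuation K b := by
      rw [t2] at hmul
      exact mul_left_cancel₀ (hpos v b hb).ne' hmul
    have h2 : v'.valuation K c < v'.valuation K a := by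
      rcases types hp.ne_zero v' h (hs v' hv2) with ⟨s1, s2⟩ | ⟨s1, s2⟩ | ⟨s1, s2⟩
      · exact absurd h1 s1.ne
      · exact absurd h1 s1.ne'
      · exact s1
    rcases abs_eq_abs.1 hN with hN' | hN'
    · -- the same norm
      obtain ⟨α, hα⟩ : ∃ α : K, α = -a / c := ⟨_, rfl⟩
      obtain ⟨β, hβ⟩ : ∃ β : K, β = -b / c := ⟨_, rfl⟩
      have hα0 : α ≠ 0 := by
        rw [hα]
        exact div_ne_zero (neg_ne_zero.2 ha) hc
      have hβ0 : β ≠ 0 := by
        rw [hβ]
        exact div_ne_zero (neg_ne_zero.2 hb) hc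
      have hsum : α ^ p + β ^ p = 1 := by
        rw [hα, hβ, div_pow, div_pow, hodd.neg_pow, hodd.neg_pow]
        have hcp : c ^ p ≠ 0 := pow_ne_zero _ hc
        field_simp
        linear_combination -h
      have hN3 : a * σ a = b * σ b := by rw [← hnorm, ← hnorm, hN']
      have hN2 : α * σ α = β * σ β := by
        have hσc : σ c ≠ 0 := (map_ne_zero σ).2 hc
        rw [hα, hβ, map_div₀, map_div₀, map_neg, map_neg]
        field_simp
        linear_combination hN3
      have hsumσ : (σ α) ^ p + (σ β) ^ p = 1 := by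
        rw [← map_pow, ← map_pow, ← map_add, hsum, map_one]
      have hNp : α ^ p * (σ α) ^ p = β ^ p * (σ β) ^ p := by
        rw [← mul_pow, ← mul_pow, hN2]
      have hpow : (σ β) ^ p = α ^ p := by
        have e1 : α ^ p = 1 - β ^ p := by linear_combination hsum
        have e2 : (σ α) ^ p = 1 - (σ β) ^ p := by linear_combination hsumσ
        rw [e1, e2] at hNp
        rw [e1]
        linear_combination -hNp
      have hαβ : σ β = α := by
        have h3 : (σ β / α) ^ p = 1 := by
          rw [div_pow, hpow, div_self (pow_ne_zero _ hα0)]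
        have h4 := root_one hp h5 hK h3
        rwa [div_eq_one_iff_eq hα0] at h4
      obtain ⟨S, hS⟩ : ∃ S : ℚ, S = Algebra.trace ℚ K β := ⟨_, rfl⟩
      obtain ⟨N, hN0⟩ : ∃ N : ℚ, N = Algebra.norm ℚ β := ⟨_, rfl⟩
      have hS' : β + α = (S : K) := by rw [hS, htr, hαβ]
      have hN' : β * α = (N : K) := by rw [hN0, hnorm, hαβ]
      have hL : luc S N p = 1 := by
        have h3 : luc (S : K) (N : K) p = 1 := by
          rw [luc_eq hS' hN', add_comm, hsum]
        have h10 := luc_map (algebraMap ℚ K) S N p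
        have h11 : luc (algebraMap ℚ K S) (algebraMap ℚ K N) p = 1 := by simpa using h3
        rw [h11] at h10
        exact (algebraMap ℚ K).injective (by rw [← h10, map_one])
      have hfp : Fact p.Prime := ⟨hp⟩
      have hcyc : IsCyclotomicExtension {p} ℚ (CyclotomicField p ℚ) := cycQ p
      have hζ := IsCyclotomicExtension.zeta_spec p ℚ (CyclotomicField p ℚ)
      have hcop : (classNumber (CyclotomicField p ℚ)).Coprime p :=
        ((Nat.Prime.coprime_iff_not_dvd hp).2 hreg).symm
      have h3 := ct hζ h5 hcop hL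
      have h4 := val_rat hp v hv h3
      rw [← hN', map_mul, hα, hβ, map_div₀, map_div₀, Valuation.map_neg, Valuation.map_neg] at h4
      have hc0 := hpos v c hc
      have h6 : 1 < v.valuation K a / v.valuation K c := (one_lt_div₀ hc0).2 t1
      have h7 : 1 < v.valuation K b / v.valuation K c := (one_lt_div₀ hc0).2 (t2 ▸ t1)
      exact absurd h4 (not_le.2 (one_lt_mul'' h7 h6))
    · -- the opposite norm
      obtain ⟨t, ht⟩ : ∃ t : K, t = a / b := ⟨_, rfl⟩
      have key : ∀ w : HeightOneSpectrum (𝓞 K), (p : 𝓞 K) ∈ w.asIdeal →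
          w.valuation K c < w.valuation K a → w.valuation K a = w.valuation K b →
          w.valuation K (t + 1) < 1 := by
        intro w hw h3 h4
        have hb0 := hpos w b hb
        apply val_add_pow hp w hw
        · rw [ht, map_div₀, h4, div_self hb0.ne']
        · have e : t ^ p + 1 = -((c / b) ^ p) := by
            rw [ht, div_pow, div_pow]
            have hbp : b ^ p ≠ 0 := pow_ne_zero _ hb
            field_simp
            linear_combination h
          rw [e, Valuation.map_neg, map_pow, map_div₀]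
          refine pow_lt_one₀ zero_le' ?_ hp.ne_zero
          rw [div_lt_one₀ hb0]
          exact h4 ▸ h3
      have k1 := key v hv t1 t2
      have k2 := key v' hv2 h2 h1
      rw [hv', map_add, map_one] at k2
      have hN3 : a * σ a = -(b * σ b) := by
        rw [← hnorm, ← hnorm, hN']
        push_cast
        ring
      have hσb : σ b ≠ 0 := (map_ne_zero σ).2 hb
      have hN4 : t * σ t = -1 := by
        rw [ht, map_div₀]
        field_simp
        linear_combination hN3
      apply val_two hp (by omega) v hv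
      have e : (2 : K) = (t + 1) + (σ t + 1) - (t + 1) * (σ t + 1) := by
        linear_combination hN4
      rw [e]
      refine Valuation.map_sub_lt _ (Valuation.map_add_lt _ k1 k2) ?_
      rw [map_mul]
      exact mul_lt_one_of_lt_of_le k1 k2.le

end Pool.Agent.H576.FN
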